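import Pool.Agent.ParBFS.Kn

/-! Translation into the language of the problem. -/

open Classical

namespace Pool.Agent.ParBFS

open Relation

theorem final {n k : ℕ} (h : MBK n k) (V : Type) [Fintype V] (D : Digraph V)
    (hD : ∀ v, ¬ D.Adj v v)
    (hcol : ¬ ∃ col : V → Fin k,
      ∀ v, ¬ Relation.TransGen (fun a b => D.Adj a b ∧ col a = col b) v v) :
    ∃ f : Fin n → V, Function.Injective f ∧
      ∃ (L : Fin n → Fin n → ℕ) (p : Fin n → Fin n → ℕ → V),
        (∀ i j, i ≠ j →
            p i j 0 = f i ∧ p i j (L i j + 1) = f j ∧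
            (∀ t, t ≤ L i j → D.Adj (p i j t) (p i j (t + 1))) ∧
            (∀ s t, 1 ≤ s → s ≤ L i j → 1 ≤ t → t ≤ L i j → p i j s = p i j t → s = t) ∧
            (∀ t k, 1 ≤ t → t ≤ L i j → p i j t ≠ f k)) ∧
        ∀ i j k l, i ≠ j → k ≠ l → (i ≠ k ∨ j ≠ l) →
          ∀ s t, 1 ≤ s → s ≤ L i j → 1 ≤ t → t ≤ L k l → p i j s ≠ p k l t := by
  have hW : ¬ Colable D.Adj Set.univ k := by
    rintro ⟨c, h1, h2⟩
    apply hcol
    refine ⟨fun v => ⟨c v, h1 v (Set.mem_univ v)⟩, fun v hv => h2 v (tmono ?_ hv)⟩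
    rintro a b ⟨hab, he⟩
    exact ⟨Set.mem_univ a, Set.mem_univ b, hab, by simpa using he⟩
  obtain ⟨f, l, hf, -, h1, h2⟩ := h V D.Adj hD _ hW
  have hlen : ∀ i j, (f i :: (l i j ++ [f j])).length = (l i j).length + 2 := by
    intro i j; simp
  have hget : ∀ i j t, t ≤ (l i j).length + 1 → ∀ (ht : t < (f i :: (l i j ++ [f j])).length),
      (f i :: (l i j ++ [f j])).getD t (f i) = (f i :: (l i j ++ [f j]))[t] := by
    intro i j t _ ht
    rw [List.getD_eq_getElem]
  have hmid : ∀ i j t, ∀ (_ : 1 ≤ t) (_ : t ≤ (l i j).length),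
      (f i :: (l i j ++ [f j])).getD t (f i) = (l i j)[t - 1]'(by omega) := by
    intro i j t h1 ht
    obtain ⟨s, rfl⟩ : ∃ s, t = s + 1 := ⟨t - 1, by omega⟩
    have hs : s < (l i j).length := ht
    rw [List.getD_cons_succ, List.getD_append _ _ _ _ hs, List.getD_eq_getElem _ _ hs]
    simp
  refine ⟨f, hf, fun i j => (l i j).length, fun i j t => (f i :: (l i j ++ [f j])).getD t (f i),
    ?_, ?_⟩
  · intro i j hij
    obtain ⟨g1, g2, g3⟩ := h1 i j hij
    refine ⟨by simp, ?_, ?_, ?_, ?_⟩
    · show (f i :: (l i j ++ [f j])).getD ((l i j).length + 1) (f i) = f j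
      rw [List.getD_cons_succ, List.getD_append_right _ _ _ _ le_rfl]
      simp
    · intro t ht
      change t ≤ (l i j).length at ht
      have h3 := List.isChain_iff_getElem.mp g1 t (by rw [hlen]; omega)
      show D.Adj ((f i :: (l i j ++ [f j])).getD t (f i))
        ((f i :: (l i j ++ [f j])).getD (t + 1) (f i))
      rw [hget i j t (by omega) (by rw [hlen]; omega),
        hget i j (t + 1) (by omega) (by rw [hlen]; omega)]
      exact h3
    · intro s t hs1 hs2 ht1 ht2 he
      change s ≤ (l i j).length at hs2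
      change t ≤ (l i j).length at ht2
      change (f i :: (l i j ++ [f j])).getD s (f i) = (f i :: (l i j ++ [f j])).getD t (f i) at he
      rw [hmid i j s hs1 hs2, hmid i j t ht1 ht2, List.Nodup.getElem_inj_iff g2] at he
      omega
    · intro t k ht1 ht2
      change t ≤ (l i j).length at ht2
      show (f i :: (l i j ++ [f j])).getD t (f i) ≠ f k
      rw [hmid i j t ht1 ht2]
      exact (g3 _ (List.getElem_mem _)).2 k
  · intro i j k m hij hkm hne s t hs1 hs2 ht1 ht2
    change s ≤ (l i j).length at hs2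
    change t ≤ (l k m).length at ht2
    show (f i :: (l i j ++ [f j])).getD s (f i) ≠ (f k :: (l k m ++ [f m])).getD t (f k)
    rw [hmid i j s hs1 hs2, hmid k m t ht1 ht2]
    intro he
    refine h2 i j k m hij hkm ?_ _ (List.getElem_mem (l := l i j) (n := s - 1) (by omega)) ?_
    · intro h
      rw [Prod.mk.injEq] at h
      rcases hne with h' | h'
      · exact h' h.1
      · exact h' h.2
    · rw [he]
      exact List.getElem_mem _

end Pool.Agent.ParBFS
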