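import Mathlib

/-! Colourings of vertex sets of digraphs without monochromatic directed cycles, and
subdivisions inside vertex sets. -/

open Classical

namespace Pool.Agent.ParBFS

open Relation

variable {V : Type} {R : V → V → Prop}

/-- The vertex set `W` can be coloured with `k` colours without a monochromatic directed cycle. -/
def Colable (R : V → V → Prop) (W : Set V) (k : ℕ) : Prop :=
  ∃ c : V → ℕ, (∀ v ∈ W, c v < k) ∧
    ∀ v, ¬ TransGen (fun a b => a ∈ W ∧ b ∈ W ∧ R a b ∧ c a = c b) v v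

/-- A path from `x` to `y` with interior vertices in `Z`. -/
def Pth (R : V → V → Prop) (Z : Set V) (x y : V) : Prop :=
  ∃ l : List V, (x :: (l ++ [y])).IsChain R ∧ ∀ z ∈ l, z ∈ Z

/-- A subdivision of `F` inside the vertex set `W`. -/
def Sub {ι : Type} (F : ι → ι → Prop) (R : V → V → Prop) (W : Set V) : Prop :=
  ∃ (f : ι → V) (l : ι → ι → List V), Function.Injective f ∧ (∀ i, f i ∈ W) ∧
    (∀ i j, F i j → (f i :: (l i j ++ [f j])).IsChain R ∧ (l i j).Nodup ∧
      ∀ z ∈ l i j, z ∈ W ∧ ∀ k, z ≠ f k) ∧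
    ∀ i j k m, F i j → F k m → (i, j) ≠ (k, m) → ∀ z ∈ l i j, z ∉ l k m

/-- Every finite loopless digraph which is not `k`-colourable contains a subdivision of `F`. -/
def MB {ι : Type} (F : ι → ι → Prop) (k : ℕ) : Prop :=
  ∀ (V : Type) [Finite V] (R : V → V → Prop), (∀ v, ¬ R v v) → ∀ W : Set V,
    ¬ Colable R W k → Sub F R W

theorem transGen_restrict {α : Type} {r s : α → α → Prop} {P : α → Prop}
    (hP : ∀ a b, P a → r a b → P b ∧ s a b) {a b : α} (ha : P a) (h : TransGen r a b) :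
    P b ∧ TransGen s a b := by
  induction h with
  | single h =>
    obtain ⟨h1, h2⟩ := hP _ _ ha h
    exact ⟨h1, TransGen.single h2⟩
  | tail _ h ih =>
    obtain ⟨h1, h2⟩ := hP _ _ ih.1 h
    exact ⟨h1, ih.2.tail h2⟩

theorem tmono {α : Type} {r s : α → α → Prop} (h : ∀ a b, r a b → s a b) {a b : α}
    (hab : TransGen r a b) : TransGen s a b := by
  induction hab with
  | single h' => exact TransGen.single (h _ _ h')
  | tail _ h' ih => exact ih.tail (h _ _ h')

theorem transGen_const {α : Type} {r : α → α → Prop} {d : α → ℕ}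
    (hd : ∀ a b, r a b → d b ≤ d a) {a b : α} (h : TransGen r a b) :
    d b ≤ d a ∧ (d b = d a → TransGen (fun x y => r x y ∧ d x = d a ∧ d y = d a) a b) := by
  induction h with
  | single h =>
    exact ⟨hd _ _ h, fun he => TransGen.single ⟨h, rfl, he⟩⟩
  | tail _ h ih =>
    have h1 := hd _ _ h
    refine ⟨h1.trans ih.1, fun he => ?_⟩
    have h2 : _ = d a := le_antisymm ih.1 (he ▸ h1)
    exact (ih.2 h2).tail ⟨h, h2, he⟩

theorem Colable.mono {W W' : Set V} {k k' : ℕ} (h : Colable R W k) (hW : W' ⊆ W) (hk : k ≤ k') :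
    Colable R W' k' := by
  obtain ⟨c, h1, h2⟩ := h
  refine ⟨c, fun v hv => (h1 v (hW hv)).trans_le hk, fun v hv => h2 v ?_⟩
  exact tmono (fun a b hab => ⟨hW hab.1, hW hab.2.1, hab.2.2⟩) hv

theorem colable_empty (k : ℕ) : Colable R (∅ : Set V) k := by
  refine ⟨fun _ => 0, fun v hv => absurd hv (Set.notMem_empty v), fun v hv => ?_⟩
  rcases TransGen.head'_iff.mp hv with ⟨_, h, _⟩
  exact absurd h.1 (Set.notMem_empty _)

theorem nonempty_of_not_colable {W : Set V} {k : ℕ} (h : ¬ Colable R W k) : W.Nonempty := by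
  by_contra hne
  rw [Set.not_nonempty_iff_eq_empty] at hne
  subst hne
  exact h (colable_empty k)

/-- colouring of a union -/
theorem Colable.union {A B : Set V} {a b : ℕ} (hA : Colable R A a) (hB : Colable R B b) :
    Colable R (A ∪ B) (a + b) := by
  obtain ⟨cA, hA1, hA2⟩ := hA
  obtain ⟨cB, hB1, hB2⟩ := hB
  refine ⟨fun v => if v ∈ A then cA v else a + cB v, ?_, ?_⟩
  · intro v hv
    by_cases h : v ∈ A
    · simp only [h, if_true]
      have := hA1 v h
      omega
    · simp only [h, if_false]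
      have := hB1 v (hv.resolve_left h)
      omega
  · intro v hv
    by_cases h : v ∈ A
    · refine hA2 v (transGen_restrict (P := fun x => x ∈ A) ?_ h hv).2
      rintro x y hx ⟨_, hy, hR, hc⟩
      by_cases hyA : y ∈ A
      · simp only [hx, hyA, if_true] at hc
        exact ⟨hyA, hx, hyA, hR, hc⟩
      · simp only [hx, hyA, if_true, if_false] at hc
        have := hA1 x hx
        omega
    · have hvB : v ∈ B := by
        rcases TransGen.head'_iff.mp hv with ⟨_, h', _⟩
        exact h'.1.resolve_left h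
      refine hB2 v (transGen_restrict (P := fun x => x ∉ A ∧ x ∈ B) ?_ ⟨h, hvB⟩ hv).2
      rintro x y ⟨hx, hxB⟩ ⟨_, hy, hR, hc⟩
      by_cases hyA : y ∈ A
      · simp only [hx, hyA, if_true, if_false] at hc
        have := hA1 y hyA
        omega
      · simp only [hx, hyA, if_false] at hc
        have hyB := hy.resolve_left hyA
        exact ⟨⟨hyA, hyB⟩, hxB, hyB, hR, by omega⟩

/-- an out-closed part and the rest can be coloured independently -/
theorem Colable.outclosed {W Z : Set V} {k : ℕ} (hZ : ∀ a ∈ W, ∀ b ∈ W, a ∈ Z → R a b → b ∈ Z)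
    (h1 : Colable R (W ∩ Z) k) (h2 : Colable R (W \ Z) k) : Colable R W k := by
  obtain ⟨c1, h11, h12⟩ := h1
  obtain ⟨c2, h21, h22⟩ := h2
  refine ⟨fun v => if v ∈ Z then c1 v else c2 v, ?_, ?_⟩
  · intro v hv
    by_cases h : v ∈ Z
    · simp only [h, if_true]; exact h11 v ⟨hv, h⟩
    · simp only [h, if_false]; exact h21 v ⟨hv, h⟩
  · intro v hv
    by_cases h : v ∈ Z
    · refine h12 v (transGen_restrict (P := fun x => x ∈ Z) ?_ h hv).2
      rintro x y hx ⟨hxW, hyW, hR, hc⟩
      have hy := hZ x hxW y hyW hx hR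
      simp only [hx, hy, if_true] at hc
      exact ⟨hy, ⟨hxW, hx⟩, ⟨hyW, hy⟩, hR, hc⟩
    · -- going backwards one stays outside `Z`
      have hv' : TransGen (Function.swap
          (fun a b => a ∈ W ∧ b ∈ W ∧ R a b ∧
            (if a ∈ Z then c1 a else c2 a) = (if b ∈ Z then c1 b else c2 b))) v v :=
        transGen_swap.mpr hv
      have h3 := (transGen_restrict (P := fun x => x ∉ Z)
        (s := Function.swap (fun a b => a ∈ W \ Z ∧ b ∈ W \ Z ∧ R a b ∧ c2 a = c2 b)) ?_ h hv').2
      · exact h22 v (transGen_swap.mp h3)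
      · rintro x y hx ⟨hyW, hxW, hR, hc⟩
        have hy : y ∉ Z := fun hy => hx (hZ y hyW x hxW hy hR)
        simp only [hx, hy, if_false] at hc
        exact ⟨hy, ⟨hyW, hy⟩, ⟨hxW, hx⟩, hR, hc⟩

theorem Colable.swap {W : Set V} {k : ℕ} (h : Colable R W k) :
    Colable (Function.swap R) W k := by
  obtain ⟨c, h1, h2⟩ := h
  refine ⟨c, h1, fun v hv => h2 v ?_⟩
  rw [← transGen_swap]
  exact tmono (fun a b hab => ⟨hab.2.1, hab.1, hab.2.2.1, hab.2.2.2.symm⟩) hv

/-- levels: if every level set is `k`-colourable, the whole set is `2k`-colourable. -/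
theorem Colable.levels {W : Set V} {k : ℕ} {d : V → ℕ}
    (hd : ∀ a ∈ W, ∀ b ∈ W, R a b → d b ≤ d a + 1)
    (h : ∀ n, Colable R {v | v ∈ W ∧ d v = n} k) : Colable R W (2 * k) := by
  choose c h1 h2 using h
  have key : ∀ a ∈ W, c (d a) a < k := fun a ha => h1 (d a) a ⟨ha, rfl⟩
  refine ⟨fun v => k * (d v % 2) + c (d v) v, ?_, ?_⟩
  · intro v hv
    have h3 := key v hv
    have h4 : d v % 2 ≤ 1 := by omega
    nlinarith
  · intro v hv
    have hstep : ∀ a b, (a ∈ W ∧ b ∈ W ∧ R a b ∧
        k * (d a % 2) + c (d a) a = k * (d b % 2) + c (d b) b) →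
        d a % 2 = d b % 2 ∧ c (d a) a = c (d b) b := by
      rintro a b ⟨ha, hb, _, hc⟩
      have h3 := key a ha
      have h4 := key b hb
      have h5 : d a % 2 = 0 ∨ d a % 2 = 1 := by omega
      have h6 : d b % 2 = 0 ∨ d b % 2 = 1 := by omega
      rcases h5 with h5 | h5 <;> rcases h6 with h6 | h6 <;> rw [h5, h6] at hc ⊢ <;>
        simp only [mul_zero, mul_one, zero_add] at hc <;> constructor <;> omega
    have hdec : ∀ a b, (a ∈ W ∧ b ∈ W ∧ R a b ∧
        k * (d a % 2) + c (d a) a = k * (d b % 2) + c (d b) b) → d b ≤ d a := by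
      intro a b hab
      have h3 := hd a hab.1 b hab.2.1 hab.2.2.1
      have h4 := (hstep a b hab).1
      omega
    have h3 := (transGen_const (d := d) hdec hv).2 rfl
    refine h2 (d v) v (tmono ?_ h3)
    rintro a b ⟨hab, ha, hb⟩
    have h4 := (hstep a b hab).2
    rw [ha, hb] at h4
    exact ⟨⟨hab.1, ha⟩, ⟨hab.2.1, hb⟩, hab.2.2.1, h4⟩

/-- a minimal set which is not `k`-colourable is strongly connected -/
theorem exists_strong [Finite V] {W : Set V} {k : ℕ} (h : ¬ Colable R W k) :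
    ∃ W' ⊆ W, ¬ Colable R W' k ∧ (∀ x ∈ W', Colable R (W' \ {x}) k) ∧
      ∀ r ∈ W', ∀ v ∈ W', ReflTransGen (fun a b => a ∈ W' ∧ b ∈ W' ∧ R a b) r v := by
  obtain ⟨W', hle, hmin⟩ :=
    exists_minimal_le_of_wellFoundedLT (fun S : Set V => ¬ Colable R S k) W h
  have hprop : ∀ S : Set V, S ⊆ W' → S ≠ W' → Colable R S k := by
    intro S hS hne
    by_contra hcon
    exact hne (Set.Subset.antisymm hS (hmin.2 hcon hS))
  refine ⟨W', hle, hmin.1, ?_, ?_⟩
  · intro x hx
    refine hprop _ Set.sdiff_subset ?_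
    intro he
    have : x ∈ W' \ {x} := he.symm ▸ hx
    exact this.2 rfl
  · intro r hr v hv
    by_contra hcon
    apply hmin.1
    refine Colable.outclosed
      (Z := {z | ReflTransGen (fun a b => a ∈ W' ∧ b ∈ W' ∧ R a b) r z}) ?_ ?_ ?_
    · intro a ha b hb haZ hab
      exact ReflTransGen.tail haZ ⟨ha, hb, hab⟩
    · refine hprop _ Set.inter_subset_left ?_
      intro he
      have : v ∈ W' ∩ {z | ReflTransGen (fun a b => a ∈ W' ∧ b ∈ W' ∧ R a b) r z} := he.symm ▸ hv
      exact hcon this.2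
    · refine hprop _ Set.sdiff_subset ?_
      intro he
      have : r ∈ W' \ {z | ReflTransGen (fun a b => a ∈ W' ∧ b ∈ W' ∧ R a b) r z} := he.symm ▸ hr
      exact this.2 ReflTransGen.refl

end Pool.Agent.ParBFS
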