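import Pool.Agent.ParBFS.Ops

/-! A digraph which is not 2-colourable contains a subdivision of the complete digraph on three
vertices minus one arc. -/

open Classical

namespace Pool.Agent.ParBFS

open Relation

variable {V : Type} {R : V → V → Prop}

theorem outclosed_cycle {α : Type} {r : α → α → Prop} {Z : Set α}
    (hZ : ∀ a b, r a b → a ∈ Z → b ∈ Z) {v : α} (h : TransGen r v v) :
    TransGen (fun a b => r a b ∧ (a ∈ Z ↔ v ∈ Z) ∧ (b ∈ Z ↔ v ∈ Z)) v v := by
  by_cases hv : v ∈ Z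
  · refine (transGen_restrict (P := fun x => x ∈ Z) ?_ hv h).2
    intro a b ha hab
    have hb := hZ a b hab ha
    exact ⟨hb, hab, by simp [ha, hv], by simp [hb, hv]⟩
  · have key : ∀ a b, TransGen r a b → b ∉ Z → a ∉ Z ∧
        TransGen (fun a b => r a b ∧ (a ∈ Z ↔ v ∈ Z) ∧ (b ∈ Z ↔ v ∈ Z)) a b := by
      intro a b hab
      induction hab with
      | @single b h =>
        intro hb
        have ha : a ∉ Z := fun ha => hb (hZ _ _ h ha)
        exact ⟨ha, TransGen.single ⟨h, by simp [ha, hv], by simp [hb, hv]⟩⟩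
      | @tail b c _ h ih =>
        intro hc
        have hb : b ∉ Z := fun hb => hc (hZ _ _ h hb)
        obtain ⟨h1, h2⟩ := ih hb
        exact ⟨h1, h2.tail ⟨h, by simp [hb, hv], by simp [hc, hv]⟩⟩
    exact (key v v h hv).2

/-- if `A` is acyclic and `A ∪ {b}` is not, there is a cycle through `b`. -/
theorem exists_petal {A : Set V} {b : V} (hb : b ∉ A) (hR : ∀ v, ¬ R v v)
    (hA : ∀ v, ¬ TransGen (fun x y => x ∈ A ∧ y ∈ A ∧ R x y) v v)
    (hc : ∃ v, TransGen (fun x y => x ∈ insert b A ∧ y ∈ insert b A ∧ R x y) v v) :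
    Pth R A b b := by
  by_contra hno
  obtain ⟨v, hv⟩ := hc
  have hinv : ∀ y, TransGen (fun x y => x ∈ insert b A ∧ y ∈ insert b A ∧ R x y) b y →
      y ∈ A ∧ Pth R A b y := by
    intro y hy
    induction hy with
    | @single y h =>
      have hyb : y ≠ b := by
        rintro rfl
        exact hR _ h.2.2
      exact ⟨h.2.1.resolve_left hyb, pth_single h.2.2⟩
    | @tail x y _ h ih =>
      have h3 := ih.2.trans ih.1 (pth_single (Z := A) h.2.2)
      have hyb : y ≠ b := by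
        rintro rfl
        exact hno h3
      exact ⟨h.2.1.resolve_left hyb, h3⟩
  have hbb : ¬ TransGen (fun x y => x ∈ insert b A ∧ y ∈ insert b A ∧ R x y) b b :=
    fun h => hb (hinv b h).1
  -- the set of vertices reachable from `b` is out-closed
  have h1 := outclosed_cycle (Z := {y | y = b ∨
    TransGen (fun x y => x ∈ insert b A ∧ y ∈ insert b A ∧ R x y) b y}) (by
      intro x y hxy hx
      rcases hx with hx | hx
      · subst hx; exact Or.inr (TransGen.single hxy)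
      · exact Or.inr (hx.tail hxy)) hv
  by_cases hvb : v = b
  · exact hbb (hvb ▸ hv)
  · have hvA : v ∈ A := by
      rcases TransGen.head'_iff.mp hv with ⟨_, h', _⟩
      exact h'.1.resolve_left hvb
    -- no vertex of the cycle is `b`
    have h2 := (transGen_restrict (P := fun x => x ∈ A)
      (s := fun x y => x ∈ A ∧ y ∈ A ∧ R x y) ?_ hvA h1).2
    · exact hA v h2
    · rintro x y hx ⟨⟨_, hy, hxy⟩, hxZ, hyZ⟩
      have hyb : y ≠ b := by
        rintro rfl
        have h3 : v = y ∨ TransGen (fun x z => x ∈ insert y A ∧ z ∈ insert y A ∧ R x z) y v :=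
          hyZ.mp (Or.inl rfl)
        rcases h3 with h3 | h3
        · exact hvb h3
        · -- then `x` is reachable from `b = y` too, closing a cycle through `y`
          have h4 : x = y ∨ TransGen (fun x z => x ∈ insert y A ∧ z ∈ insert y A ∧ R x z) y x :=
            hxZ.mpr (Or.inr h3)
          rcases h4 with h4 | h4
          · exact hb (h4 ▸ hx)
          · exact hbb (h4.tail ⟨Or.inr hx, Or.inl rfl, hxy⟩)
      have hyA := hy.resolve_left hyb
      exact ⟨hyA, hx, hyA, hxy⟩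

/-- clean connection between two disjoint sets -/
theorem clean {U : Set V} {l1 l2 : List V} {v z : V} (hv : v ∈ l1) (hz : z ∈ l2)
    (hd : ∀ x ∈ l1, x ∉ l2)
    (h : ReflTransGen (fun a b => a ∈ U ∧ b ∈ U ∧ R a b) v z) :
    ∃ a ∈ l1, ∃ c ∈ l2, Pth R {x | x ∈ U ∧ x ∉ l1 ∧ x ∉ l2} a c := by
  have key : ∀ y, ReflTransGen (fun a b => a ∈ U ∧ b ∈ U ∧ R a b) v y →
      (∃ a ∈ l1, ∃ c ∈ l2, Pth R {x | x ∈ U ∧ x ∉ l1 ∧ x ∉ l2} a c) ∨
      (y ∉ l2 ∧ (y ∈ l1 ∨ (y ∈ U ∧ y ∉ l1 ∧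
        ∃ a ∈ l1, Pth R {x | x ∈ U ∧ x ∉ l1 ∧ x ∉ l2} a y))) := by
    intro y hy
    induction hy with
    | refl => exact Or.inr ⟨hd v hv, Or.inl hv⟩
    | @tail x y _ h ih =>
      rcases ih with ih | ⟨hx2, ih⟩
      · exact Or.inl ih
      · by_cases hy2 : y ∈ l2
        · left
          rcases ih with ih | ⟨hxU, hx1, a, ha, hp⟩
          · exact ⟨x, ih, y, hy2, pth_single h.2.2⟩
          · exact ⟨a, ha, y, hy2, hp.trans ⟨hxU, hx1, hx2⟩ (pth_single h.2.2)⟩
        · right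
          refine ⟨hy2, ?_⟩
          by_cases hy1 : y ∈ l1
          · exact Or.inl hy1
          · right
            refine ⟨h.2.1, hy1, ?_⟩
            rcases ih with ih | ⟨hxU, hx1, a, ha, hp⟩
            · exact ⟨x, ih, pth_single h.2.2⟩
            · exact ⟨a, ha, hp.trans ⟨hxU, hx1, hx2⟩ (pth_single h.2.2)⟩
  rcases key z h with h1 | ⟨h1, _⟩
  · exact h1
  · exact absurd hz h1

theorem mb_K3e : MB (fun i j : Fin 3 => i ≠ j ∧ ¬ (i = 2 ∧ j = 1)) 2 := by
  intro V _ R hR W hW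
  obtain ⟨W', hW'W, hW', hcrit, -⟩ := exists_strong hW
  obtain ⟨b, hb⟩ := nonempty_of_not_colable hW'
  obtain ⟨c, hc1, hc2⟩ := hcrit b hb
  set U : Set V := W' \ {b} with hU
  have hbU : b ∉ U := fun h => h.2 rfl
  -- every good colouring has a petal of every colour
  have hpet : ∀ c : V → ℕ, (∀ v ∈ U, c v < 2) →
      (∀ v, ¬ TransGen (fun a b => a ∈ U ∧ b ∈ U ∧ R a b ∧ c a = c b) v v) →
      Pth R {z | z ∈ U ∧ c z = 0} b b := by
    intro c hc1 hc2
    by_contra hno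
    apply hW'
    have hbA : b ∉ {z | z ∈ U ∧ c z = 0} := fun h => hbU h.1
    have hAac : ∀ v, ¬ TransGen (fun x y => x ∈ {z | z ∈ U ∧ c z = 0} ∧
        y ∈ {z | z ∈ U ∧ c z = 0} ∧ R x y) v v := by
      intro v hv
      refine hc2 v (tmono ?_ hv)
      rintro x y ⟨hx, hy, hxy⟩
      exact ⟨hx.1, hy.1, hxy, by rw [hx.2, hy.2]⟩
    have hac : ∀ v, ¬ TransGen (fun x y => x ∈ insert b {z | z ∈ U ∧ c z = 0} ∧
        y ∈ insert b {z | z ∈ U ∧ c z = 0} ∧ R x y) v v := by
      intro v hv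
      exact hno (exists_petal hbA hR hAac ⟨v, hv⟩)
    refine ⟨fun z => if z = b then 0 else c z, ?_, ?_⟩
    · intro v hv
      by_cases h : v = b
      · simp only [h, if_true]; omega
      · simp only [h, if_false]; exact hc1 v ⟨hv, h⟩
    · intro v hv
      -- the colour is constant along the cycle
      by_cases hcv : (if v = b then 0 else c v) = 0
      · refine hac v (transGen_restrict (P := fun x => (if x = b then 0 else c x) = 0) ?_ hcv hv).2
        rintro x y hx ⟨hxW, hyW, hxy, he⟩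
        change (if x = b then 0 else c x) = (if y = b then 0 else c y) at he
        rw [hx] at he
        refine ⟨he.symm, ?_, ?_, hxy⟩
        · by_cases hxb : x = b
          · exact Or.inl hxb
          · simp only [hxb, if_false] at hx
            exact Or.inr ⟨⟨hxW, hxb⟩, hx⟩
        · by_cases hyb : y = b
          · exact Or.inl hyb
          · simp only [hyb, if_false] at he
            exact Or.inr ⟨⟨hyW, hyb⟩, he.symm⟩
      · refine hc2 v (transGen_restrict (P := fun x => (if x = b then 0 else c x) ≠ 0) ?_ hcv hv).2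
        rintro x y hx ⟨hxW, hyW, hxy, he⟩
        change (if x = b then 0 else c x) = (if y = b then 0 else c y) at he
        have hy : (if y = b then 0 else c y) ≠ 0 := he ▸ hx
        have hxb : x ≠ b := by rintro rfl; simp at hx
        have hyb : y ≠ b := by rintro rfl; simp at hy
        simp only [hxb, hyb, if_false] at he
        exact ⟨hy, ⟨hxW, hxb⟩, ⟨hyW, hyb⟩, hxy, he⟩
  -- the vertices reachable from petals of colour `0`
  let Z : Set V := {z | ∃ l v, (b :: (l ++ [b])).IsChain R ∧ l.Nodup ∧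
    (∀ x ∈ l, x ∈ U ∧ c x = 0) ∧ v ∈ l ∧
    ReflTransGen (fun a b => a ∈ U ∧ b ∈ U ∧ R a b) v z}
  have hZout : ∀ x y, x ∈ U → y ∈ U → R x y → x ∈ Z → y ∈ Z := by
    rintro x y hx hy hxy ⟨l, v, h1, h2, h3, h4, h5⟩
    exact ⟨l, v, h1, h2, h3, h4, h5.tail ⟨hx, hy, hxy⟩⟩
  let c' : V → ℕ := fun z => if z ∈ Z then 1 - c z else c z
  have hc'1 : ∀ v ∈ U, c' v < 2 := by
    intro v hv
    show (if v ∈ Z then 1 - c v else c v) < 2
    by_cases h : v ∈ Z
    · simp only [h, if_true]; omega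
    · simp only [h, if_false]; exact hc1 v hv
  have hc'2 : ∀ v, ¬ TransGen (fun a b => a ∈ U ∧ b ∈ U ∧ R a b ∧ c' a = c' b) v v := by
    intro v hv
    have h1 := outclosed_cycle (Z := Z) (by
      rintro x y ⟨hx, hy, hxy, _⟩ hxZ
      exact hZout x y hx hy hxy hxZ) hv
    refine hc2 v (tmono ?_ h1)
    rintro x y ⟨⟨hx, hy, hxy, he⟩, hxZ, hyZ⟩
    refine ⟨hx, hy, hxy, ?_⟩
    have hcx := hc1 x hx
    have hcy := hc1 y hy
    change (if x ∈ Z then 1 - c x else c x) = (if y ∈ Z then 1 - c y else c y) at he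
    by_cases hvZ : v ∈ Z
    · simp only [hxZ.mpr hvZ, hyZ.mpr hvZ, if_true] at he
      omega
    · have hx' : x ∉ Z := fun h => hvZ (hxZ.mp h)
      have hy' : y ∉ Z := fun h => hvZ (hyZ.mp h)
      simp only [hx', hy', if_false] at he
      exact he
  obtain ⟨l2, hl2, hl2n, hl2c⟩ := (hpet c' hc'1 hc'2).nodup
  have hl2ne : l2 ≠ [] := by
    rintro rfl
    simp only [List.nil_append, List.isChain_cons_cons, List.isChain_singleton, and_true] at hl2
    exact hR _ hl2
  -- the new petal meets `Z`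
  obtain ⟨z, hz, hzZ⟩ : ∃ z ∈ l2, z ∈ Z := by
    by_contra hcon
    push Not at hcon
    obtain ⟨z, hz⟩ := List.exists_mem_of_ne_nil l2 hl2ne
    refine hcon z hz ⟨l2, z, hl2, hl2n, ?_, hz, ReflTransGen.refl⟩
    intro x hx
    have h1 := hl2c x hx
    have h2 : (if x ∈ Z then 1 - c x else c x) = 0 := h1.2
    simp only [hcon x hx, if_false] at h2
    exact ⟨h1.1, h2⟩
  obtain ⟨l1, v, hl1, hl1n, hl1c, hv, hvz⟩ := hzZ
  have hdisj : ∀ x ∈ l1, x ∉ l2 := by
    intro x hx hx2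
    have h1 : x ∈ Z := ⟨l1, x, hl1, hl1n, hl1c, hx, ReflTransGen.refl⟩
    have h2 : (if x ∈ Z then 1 - c x else c x) = 0 := (hl2c x hx2).2
    simp only [h1, if_true] at h2
    have := (hl1c x hx).2
    omega
  obtain ⟨a, ha, d, hd, hpad⟩ := clean hv hz hdisj hvz
  obtain ⟨p, hp1, hp2, hp3⟩ := hpad.nodup
  obtain ⟨p1, q1, rfl⟩ := List.append_of_mem ha
  obtain ⟨p2, q2, rfl⟩ := List.append_of_mem hd
  have hchain : ∀ (p q : List V) (x : V), (b :: (p ++ x :: q ++ [b])).IsChain R →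
      (b :: (p ++ [x])).IsChain R ∧ (x :: (q ++ [b])).IsChain R := by
    intro p q x h
    have e : b :: (p ++ x :: q ++ [b]) = (b :: p) ++ x :: (q ++ [b]) := by simp
    rw [e, List.isChain_split] at h
    exact ⟨by simpa using h.1, h.2⟩
  obtain ⟨g1, g2⟩ := hchain p1 q1 a hl1
  obtain ⟨g3, g4⟩ := hchain p2 q2 d hl2
  have m1 : ∀ x ∈ p1 ++ a :: q1, x ∈ W ∧ x ≠ b := fun x hx =>
    ⟨hW'W (hl1c x hx).1.1, (hl1c x hx).1.2⟩
  have m2 : ∀ x ∈ p2 ++ d :: q2, x ∈ W ∧ x ≠ b := fun x hx =>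
    ⟨hW'W (hl2c x hx).1.1, (hl2c x hx).1.2⟩
  simp only [List.mem_append, List.mem_cons] at m1 m2 hdisj
  rw [List.nodup_append, List.nodup_cons] at hl1n hl2n
  obtain ⟨n1, ⟨n2, n3⟩, n4⟩ := hl1n
  obtain ⟨k1, ⟨k2, k3⟩, k4⟩ := hl2n
  have m3 : ∀ x ∈ p, (x ∈ W ∧ x ≠ b) ∧ x ∉ p1 ∧ x ∉ q1 ∧ x ∉ p2 ∧ x ∉ q2 ∧ x ≠ a ∧ x ≠ d := by
    intro x hx
    have h1 := hp3 x hx
    have h2 := h1.2.1
    have h3 := h1.2.2
    simp only [List.mem_append, List.mem_cons, not_or] at h2 h3
    exact ⟨⟨hW'W h1.1.1, h1.1.2⟩, h2.1, h2.2.2, h3.1, h3.2.2, h2.2.1, h3.2.1⟩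
  have a1 : a ≠ b := (m1 a (by simp)).2
  have a2 : d ≠ b := (m2 d (by simp)).2
  have a3 : a ≠ d := fun h => hdisj a (by simp) (by simp [h])
  have b1 : ∀ x ∈ p1, x ≠ a := fun x hx => n4 x hx a (by simp)
  have b2 : ∀ x ∈ q1, x ≠ a := fun x hx h => n2 (h ▸ hx)
  have b3 : ∀ x ∈ p2, x ≠ d := fun x hx => k4 x hx d (by simp)
  have b4 : ∀ x ∈ q2, x ≠ d := fun x hx h => k2 (h ▸ hx)
  have b5 : ∀ x ∈ p1, x ≠ d := fun x hx h => hdisj x (by simp [hx]) (by simp [h])
  have b6 : ∀ x ∈ q1, x ≠ d := fun x hx h => hdisj x (by simp [hx]) (by simp [h])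
  have b7 : ∀ x ∈ p2, x ≠ a := fun x hx h => hdisj x (by simp [h]) (by simp [hx])
  have b8 : ∀ x ∈ q2, x ≠ a := fun x hx h => hdisj x (by simp [h]) (by simp [hx])
  have d1 : ∀ x ∈ p1, x ∉ q1 := fun x hx h => n4 x hx x (by simp [h]) rfl
  have d2 : ∀ x ∈ p2, x ∉ q2 := fun x hx h => k4 x hx x (by simp [h]) rfl
  have d3 : ∀ x ∈ p1, x ∉ p2 := fun x hx h => hdisj x (by simp [hx]) (by simp [h])
  have d4 : ∀ x ∈ p1, x ∉ q2 := fun x hx h => hdisj x (by simp [hx]) (by simp [h])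
  have d5 : ∀ x ∈ q1, x ∉ p2 := fun x hx h => hdisj x (by simp [hx]) (by simp [h])
  have d6 : ∀ x ∈ q1, x ∉ q2 := fun x hx h => hdisj x (by simp [hx]) (by simp [h])
  have hbW : b ∈ W := hW'W hb
  refine ⟨![b, a, d], ![![[], p1, p2], ![q1, [], p], ![q2, [], []]], ?_, ?_, ?_, ?_⟩
  · intro i j hij
    fin_cases i <;> fin_cases j <;> simp at hij ⊢
    · exact a1 hij.symm
    · exact a2 hij.symm
    · exact a1 hij
    · exact a3 hij
    · exact a2 hij
    · exact a3 hij.symm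
  · intro i
    fin_cases i
    · exact hbW
    · exact (m1 a (by simp)).1
    · exact (m2 d (by simp)).1
  · intro i j hij
    have hk : ∀ (P : V → Prop), P b → P a → P d → ∀ k : Fin 3, P ((![b, a, d] : Fin 3 → V) k) := by
      intro P h1 h2 h3 k
      fin_cases k
      · exact h1
      · exact h2
      · exact h3
    fin_cases i <;> fin_cases j <;> simp at hij ⊢
    · exact ⟨g1, n1, fun x hx => ⟨(m1 x (by simp [hx])).1, hk _ (m1 x (by simp [hx])).2
        (b1 x hx) (b5 x hx)⟩⟩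
    · exact ⟨g3, k1, fun x hx => ⟨(m2 x (by simp [hx])).1, hk _ (m2 x (by simp [hx])).2
        (b7 x hx) (b3 x hx)⟩⟩
    · exact ⟨g2, n3, fun x hx => ⟨(m1 x (by simp [hx])).1, hk _ (m1 x (by simp [hx])).2
        (b2 x hx) (b6 x hx)⟩⟩
    · exact ⟨hp1, hp2, fun x hx => ⟨(m3 x hx).1.1, hk _ (m3 x hx).1.2
        (m3 x hx).2.2.2.2.2.1 (m3 x hx).2.2.2.2.2.2⟩⟩
    · exact ⟨g4, k3, fun x hx => ⟨(m2 x (by simp [hx])).1, hk _ (m2 x (by simp [hx])).2
        (b8 x hx) (b4 x hx)⟩⟩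
  · intro i j k m hij hkm hne z hz
    fin_cases i <;> fin_cases j <;> fin_cases k <;> fin_cases m <;>
      simp at hij hkm hne hz ⊢ <;>
      first
        | exact d1 z hz
        | exact d2 z hz
        | exact d3 z hz
        | exact d4 z hz
        | exact d5 z hz
        | exact d6 z hz
        | exact (m3 z hz).2.1
        | exact (m3 z hz).2.2.1
        | exact (m3 z hz).2.2.2.1
        | exact (m3 z hz).2.2.2.2.1
        | exact fun h => d1 z h hz
        | exact fun h => d2 z h hz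
        | exact fun h => d3 z h hz
        | exact fun h => d4 z h hz
        | exact fun h => d5 z h hz
        | exact fun h => d6 z h hz
        | exact fun h => (m3 z h).2.1 hz
        | exact fun h => (m3 z h).2.2.1 hz
        | exact fun h => (m3 z h).2.2.2.1 hz
        | exact fun h => (m3 z h).2.2.2.2.1 hz

end Pool.Agent.ParBFS
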