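import Pool.Agent.ParBFS.K3

/-! The recursion for complete digraphs and its solution. -/

open Classical

namespace Pool.Agent.ParBFS

/-- every finite loopless digraph which is not `k`-colourable contains a subdivision of the
complete digraph on `n` vertices. -/
def MBK (n k : ℕ) : Prop := MB (fun i j : Fin n => i ≠ j) k

theorem MBK.mono {n k k' : ℕ} (h : MBK n k) (hk : k ≤ k') : MBK n k' := MB.mono h hk

theorem mbk_three : MBK 3 8 := by
  have h := mb_K3e.addArc (u := (2 : Fin 3)) (v := 1) (by decide)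
  refine h.comap id Function.injective_id ?_
  intro i j hij
  by_cases hc : i = 2 ∧ j = 1
  · exact Or.inr hc
  · exact Or.inl ⟨hij, hc⟩

theorem MBK.succ {n k : ℕ} (hn : 1 ≤ n) (h : MBK n k) :
    MBK (n + 1) (4 ^ (2 * (n - 1)) * (k + 1)) := by
  have u : Fin n := ⟨0, hn⟩
  have h1 := h.addLeaf u
  set A : Finset (Fin n) := Finset.univ.erase u with hA
  have hAc : A.card = n - 1 := by
    rw [hA, Finset.card_erase_of_mem (Finset.mem_univ _), Finset.card_univ, Fintype.card_fin]
  set E : Finset (Option (Fin n) × Option (Fin n)) :=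
    A.image (fun a => (some a, none)) ∪ A.image (fun a => (none, some a)) with hE
  have hEc : E.card ≤ 2 * (n - 1) := by
    refine (Finset.card_union_le _ _).trans ?_
    have e1 := Finset.card_image_le (s := A)
      (f := fun a => ((some a, none) : Option (Fin n) × Option (Fin n)))
    have e2 := Finset.card_image_le (s := A)
      (f := fun a => ((none, some a) : Option (Fin n) × Option (Fin n)))
    omega
  have hEne : ∀ e ∈ E, e.1 ≠ e.2 := by
    intro e he
    rw [hE, Finset.mem_union, Finset.mem_image, Finset.mem_image] at he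
    rcases he with ⟨a, _, rfl⟩ | ⟨a, _, rfl⟩ <;> simp
  have h2 := h1.addArcs E hEne
  have h3 : MB (fun i j : Option (Fin n) => i ≠ j) (4 ^ (2 * (n - 1)) * (k + 1)) := by
    refine MB.mono (k := 4 ^ E.card * (k + 1)) ?_
      (Nat.mul_le_mul_right _ (Nat.pow_le_pow_right (by norm_num) hEc))
    refine h2.comap id Function.injective_id ?_
    intro i j hij
    simp only [id]
    cases i with
    | none =>
      cases j with
      | none => exact absurd rfl hij
      | some b =>
        by_cases hb : b = u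
        · exact Or.inl (Or.inr (Or.inr ⟨rfl, by rw [hb]⟩))
        · right
          rw [hE, Finset.mem_union, Finset.mem_image, Finset.mem_image]
          exact Or.inr ⟨b, Finset.mem_erase.mpr ⟨hb, Finset.mem_univ _⟩, rfl⟩
    | some a =>
      cases j with
      | none =>
        by_cases ha : a = u
        · exact Or.inl (Or.inr (Or.inl ⟨by rw [ha], rfl⟩))
        · right
          rw [hE, Finset.mem_union, Finset.mem_image, Finset.mem_image]
          exact Or.inl ⟨a, Finset.mem_erase.mpr ⟨ha, Finset.mem_univ _⟩, rfl⟩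
      | some b =>
        exact Or.inl (Or.inl ⟨a, b, rfl, rfl, fun hab => hij (by rw [hab])⟩)
  exact h3.comap (finSuccEquiv n) (finSuccEquiv n).injective
    (fun i j hij => (finSuccEquiv n).injective.ne hij)

theorem MBK.add {a b k m : ℕ} (h1 : MBK a k) (h2 : MBK b m) :
    MBK (a + b) (4 ^ (2 * (a * b)) * (k + m + 1)) := by
  have h3 := MB.sum h1 h2
  set E : Finset ((Fin a ⊕ Fin b) × (Fin a ⊕ Fin b)) :=
    (Finset.univ : Finset (Fin a × Fin b)).image (fun p => (Sum.inl p.1, Sum.inr p.2)) ∪
    (Finset.univ : Finset (Fin a × Fin b)).image (fun p => (Sum.inr p.2, Sum.inl p.1)) with hE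
  have hEc : E.card ≤ 2 * (a * b) := by
    refine (Finset.card_union_le _ _).trans ?_
    have e1 := Finset.card_image_le (s := (Finset.univ : Finset (Fin a × Fin b)))
      (f := fun p => ((Sum.inl p.1, Sum.inr p.2) : (Fin a ⊕ Fin b) × (Fin a ⊕ Fin b)))
    have e2 := Finset.card_image_le (s := (Finset.univ : Finset (Fin a × Fin b)))
      (f := fun p => ((Sum.inr p.2, Sum.inl p.1) : (Fin a ⊕ Fin b) × (Fin a ⊕ Fin b)))
    rw [Finset.card_univ, Fintype.card_prod, Fintype.card_fin, Fintype.card_fin] at e1 e2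
    omega
  have hEne : ∀ e ∈ E, e.1 ≠ e.2 := by
    intro e he
    rw [hE, Finset.mem_union, Finset.mem_image, Finset.mem_image] at he
    rcases he with ⟨a, _, rfl⟩ | ⟨a, _, rfl⟩ <;> simp
  have h4 := h3.addArcs E hEne
  have h5 : MB (fun i j : Fin a ⊕ Fin b => i ≠ j) (4 ^ (2 * (a * b)) * (k + m + 1)) := by
    refine MB.mono (k := 4 ^ E.card * (k + m + 1)) ?_
      (Nat.mul_le_mul_right _ (Nat.pow_le_pow_right (by norm_num) hEc))
    refine h4.comap id Function.injective_id ?_
    intro i j hij
    simp only [id]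
    rcases i with i | i <;> rcases j with j | j
    · exact Or.inl (Or.inl ⟨i, j, rfl, rfl, fun h => hij (by rw [h])⟩)
    · right
      rw [hE, Finset.mem_union, Finset.mem_image, Finset.mem_image]
      exact Or.inl ⟨(i, j), Finset.mem_univ _, rfl⟩
    · right
      rw [hE, Finset.mem_union, Finset.mem_image, Finset.mem_image]
      exact Or.inr ⟨(j, i), Finset.mem_univ _, rfl⟩
    · exact Or.inl (Or.inr ⟨i, j, rfl, rfl, fun h => hij (by rw [h])⟩)
  exact h5.comap finSumFinEquiv.symm finSumFinEquiv.symm.injective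
    (fun i j hij => finSumFinEquiv.symm.injective.ne hij)

/-- the exponent -/
def ex (n : ℕ) : ℕ := (2 * n ^ 2 + 2 * n - 28) / 3

theorem mbk_bound (n : ℕ) (hn : 4 ≤ n) :
    ∃ m, MBK n m ∧ m + 4 ^ (ex n - (n - 4)) ≤ 10 * 4 ^ ex n := by
  induction n using Nat.strong_induction_on with
  | _ n ih =>
    have h4 : MBK 4 2304 := (mbk_three.succ (by norm_num)).mono (by norm_num)
    have h5 : MBK 5 9441280 := (h4.succ (by norm_num)).mono (by norm_num)
    have h6 : MBK 6 618743791616 := (h5.succ (by norm_num)).mono (by norm_num)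
    have h7 : MBK 7 648799890038587392 := (h6.succ (by norm_num)).mono (by norm_num)
    rcases Nat.lt_or_ge n 8 with hlt | hge
    · interval_cases n
      · exact ⟨_, h4, by norm_num [ex]⟩
      · exact ⟨_, h5, by norm_num [ex]⟩
      · exact ⟨_, h6, by norm_num [ex]⟩
      · exact ⟨_, h7, by norm_num [ex]⟩
    · rcases Nat.even_or_odd' n with ⟨k, rfl | rfl⟩
      · -- n = 2k
        have hk : 4 ≤ k := by omega
        obtain ⟨m, hm, hm2⟩ := ih k (by omega) hk
        refine ⟨_, (two_mul k) ▸ (hm.add hm), ?_⟩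
        have hq : 4 * k ≤ k * k := Nat.mul_le_mul_right k hk
        have e1 : 2 * (k * k) + ex k + 2 ≤ ex (2 * k) := by
          unfold ex
          have : (2 * k) ^ 2 = 4 * (k * k) := by ring
          rw [this, sq]
          omega
        have e2 : m ≤ 10 * 4 ^ ex k := le_trans (Nat.le_add_right _ _) hm2
        have e3 : (1 : ℕ) ≤ 4 ^ ex k := Nat.one_le_pow _ _ (by norm_num)
        have e4 : 4 ^ (2 * (k * k)) * (m + m + 1) ≤ 4 ^ (2 * (k * k)) * (21 * 4 ^ ex k) :=
          Nat.mul_le_mul_left _ (by omega)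
        have e5 : 4 ^ (2 * (k * k)) * (21 * 4 ^ ex k) * 16 = 21 * 4 ^ (2 * (k * k) + ex k + 2) := by
          rw [pow_add, pow_add]; ring
        have e6 : (4 : ℕ) ^ (2 * (k * k) + ex k + 2) ≤ 4 ^ ex (2 * k) :=
          Nat.pow_le_pow_right (by norm_num) e1
        have e7 : (4 : ℕ) ^ (ex (2 * k) - (2 * k - 4)) ≤ 4 ^ ex (2 * k) :=
          Nat.pow_le_pow_right (by norm_num) (Nat.sub_le _ _)
        omega
      · -- n = 2k + 1
        have hk : 4 ≤ k := by omega
        obtain ⟨m, hm, hm2⟩ := ih k (by omega) hk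
        obtain ⟨m', hm', hm2'⟩ := ih (k + 1) (by omega) (by omega)
        have hsum : k + 1 + k = 2 * k + 1 := by ring
        refine ⟨_, hsum ▸ (hm'.add hm), ?_⟩
        have hq : 4 * k ≤ k * k := Nat.mul_le_mul_right k hk
        have e1 : 2 * ((k + 1) * k) + ex (k + 1) = ex (2 * k + 1) := by
          unfold ex
          have h1 : (2 * k + 1) ^ 2 = 4 * (k * k) + 4 * k + 1 := by ring
          have h2 : (k + 1) ^ 2 = k * k + 2 * k + 1 := by ring
          have h3 : (k + 1) * k = k * k + k := by ring
          rw [h1, h2, h3]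
          omega
        have e2 : ex k + k + 2 ≤ ex (k + 1) := by
          unfold ex
          have h2 : (k + 1) ^ 2 = k * k + 2 * k + 1 := by ring
          rw [h2, sq]
          omega
        -- abbreviations
        set X := 4 ^ (ex (k + 1) - (k - 3)) with hX
        have e3 : m ≤ 10 * 4 ^ ex k - 1 := by
          have : (1 : ℕ) ≤ 4 ^ (ex k - (k - 4)) := Nat.one_le_pow _ _ (by norm_num)
          omega
        have e4 : (1 : ℕ) ≤ 4 ^ ex k := Nat.one_le_pow _ _ (by norm_num)
        have e5 : m' + X ≤ 10 * 4 ^ ex (k + 1) := by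
          have : k + 1 - 4 = k - 3 := by omega
          rw [this] at hm2'
          exact hm2'
        have e6 : 4 ^ ex k * 1024 ≤ X := by
          have h1 : (4 : ℕ) ^ ex k * 1024 = 4 ^ (ex k + 5) := by rw [pow_add]; norm_num
          rw [h1, hX]
          exact Nat.pow_le_pow_right (by norm_num) (by omega)
        have e7 : 4 ^ (ex (k + 1) - (2 * k - 3)) * 256 ≤ X := by
          have h1 : (4 : ℕ) ^ (ex (k + 1) - (2 * k - 3)) * 256 =
            4 ^ (ex (k + 1) - (2 * k - 3) + 4) := by rw [pow_add]; norm_num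
          rw [h1, hX]
          have h2 : 2 * k - 3 ≤ ex (k + 1) := by
            unfold ex
            have h2 : (k + 1) ^ 2 = k * k + 2 * k + 1 := by ring
            rw [h2]
            omega
          exact Nat.pow_le_pow_right (by norm_num) (by omega)
        have e8 : m' + m + 1 + 4 ^ (ex (k + 1) - (2 * k - 3)) ≤ 10 * 4 ^ ex (k + 1) := by omega
        have e9 : 4 ^ (ex (2 * k + 1) - (2 * k + 1 - 4)) =
            4 ^ (2 * ((k + 1) * k)) * 4 ^ (ex (k + 1) - (2 * k - 3)) := by
          rw [← pow_add]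
          congr 1
          have h2 : 2 * k - 3 ≤ ex (k + 1) := by
            unfold ex
            have h2 : (k + 1) ^ 2 = k * k + 2 * k + 1 := by ring
            rw [h2]
            omega
          rw [← e1]
          omega
        rw [e9, ← mul_add, ← e1, pow_add]
        calc 4 ^ (2 * ((k + 1) * k)) * (m' + m + 1 + 4 ^ (ex (k + 1) - (2 * k - 3)))
            ≤ 4 ^ (2 * ((k + 1) * k)) * (10 * 4 ^ ex (k + 1)) := Nat.mul_le_mul_left _ e8
          _ = 10 * (4 ^ (2 * ((k + 1) * k)) * 4 ^ ex (k + 1)) := by ring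

theorem mbk_main (n : ℕ) (hn : 4 ≤ n) : MBK n (10 * 4 ^ ex n) := by
  obtain ⟨m, hm, hm2⟩ := mbk_bound n hn
  exact hm.mono (le_trans (Nat.le_add_right _ _) hm2)

end Pool.Agent.ParBFS
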