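import Pool.Agent.ParBFS.Paths

/-! Operations on digraphs and their cost. -/

open Classical

namespace Pool.Agent.ParBFS

open Relation

variable {V : Type} {R : V → V → Prop}

theorem MB.mono {ι : Type} {F : ι → ι → Prop} {k k' : ℕ} (h : MB F k) (hk : k ≤ k') :
    MB F k' := by
  intro V _ R hR W hW
  exact h V R hR W (fun hc => hW (hc.mono subset_rfl hk))

/-- pulling back along an injection -/
theorem MB.comap {ι κ : Type} {F : ι → ι → Prop} {G : κ → κ → Prop} {k : ℕ} (h : MB F k)
    (φ : κ → ι) (hφ : Function.Injective φ) (hG : ∀ i j, G i j → F (φ i) (φ j)) : MB G k := by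
  intro V _ R hR W hW
  obtain ⟨f, l, hf, hfW, h1, h2⟩ := h V R hR W hW
  refine ⟨fun i => f (φ i), fun i j => l (φ i) (φ j), hf.comp hφ, fun i => hfW _, ?_, ?_⟩
  · intro i j hij
    obtain ⟨g1, g2, g3⟩ := h1 _ _ (hG i j hij)
    exact ⟨g1, g2, fun z hz => ⟨(g3 z hz).1, fun k => (g3 z hz).2 _⟩⟩
  · intro i j k m hij hkm hne z hz
    refine h2 _ _ _ _ (hG i j hij) (hG k m hkm) ?_ z hz
    intro he
    rw [Prod.mk.injEq] at he
    exact hne (by rw [hφ he.1, hφ he.2])

/-- one vertex -/
theorem mb_unit : MB (fun _ _ : Unit => False) 0 := by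
  intro V _ R hR W hW
  obtain ⟨x, hx⟩ := nonempty_of_not_colable hW
  exact ⟨fun _ => x, fun _ _ => [], fun _ _ _ => rfl, fun _ => hx, fun _ _ h => h.elim,
    fun _ _ _ _ h => h.elim⟩

/-- adding an arc costs a factor `4` -/
theorem MB.addArc {ι : Type} {F : ι → ι → Prop} {k : ℕ} (h : MB F k) {u v : ι} (huv : u ≠ v) :
    MB (fun i j => F i j ∨ (i = u ∧ j = v)) (4 * k) := by
  intro V _ R hR W hW
  by_cases hF : F u v
  · have h0 : MB (fun i j => F i j ∨ (i = u ∧ j = v)) k := by
      refine h.comap id Function.injective_id ?_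
      rintro i j (h | ⟨rfl, rfl⟩)
      · exact h
      · exact hF
    exact h0 V R hR W (fun hc => hW (hc.mono subset_rfl (by omega)))
  obtain ⟨W', hW'W, hW', hpath⟩ := bfs2 hW
  obtain ⟨f, l, hf, hfW, h1, h2⟩ := h V R hR W' hW'
  obtain ⟨p, hp1, hp2, hp3⟩ := (hpath (f u) (hfW u) (f v) (hfW v) (fun he => huv (hf he))).nodup
  refine ⟨f, fun i j => if i = u ∧ j = v then p else l i j, hf, fun i => hW'W (hfW i), ?_, ?_⟩
  · intro i j hij
    by_cases hc : i = u ∧ j = v
    · simp only [hc, and_self, if_true]
      refine ⟨hp1, hp2, fun z hz => ⟨(hp3 z hz).1, fun k he => (hp3 z hz).2 (he ▸ hfW k)⟩⟩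
    · simp only [hc, if_false]
      have hF' : F i j := by tauto
      obtain ⟨g1, g2, g3⟩ := h1 i j hF'
      exact ⟨g1, g2, fun z hz => ⟨hW'W (g3 z hz).1, (g3 z hz).2⟩⟩
  · intro i j k m hij hkm hne z hz
    by_cases hc : i = u ∧ j = v
    · by_cases hc' : k = u ∧ m = v
      · exact absurd (by rw [hc.1, hc.2, hc'.1, hc'.2]) hne
      · simp only [hc, hc', and_self, if_true, if_false] at hz ⊢
        intro hz'
        exact (hp3 z hz).2 ((h1 k m (by tauto)).2.2 z hz').1
    · by_cases hc' : k = u ∧ m = v
      · simp only [hc, hc', and_self, if_true, if_false] at hz ⊢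
        intro hz'
        exact (hp3 z hz').2 ((h1 i j (by tauto)).2.2 z hz).1
      · simp only [hc, hc', if_false] at hz ⊢
        exact h2 i j k m (by tauto) (by tauto) hne z hz

/-- adding a set of arcs -/
theorem MB.addArcs {ι : Type} {F : ι → ι → Prop} {k : ℕ} (h : MB F k) (E : Finset (ι × ι))
    (hE : ∀ e ∈ E, e.1 ≠ e.2) :
    MB (fun i j => F i j ∨ (i, j) ∈ E) (4 ^ E.card * k) := by
  induction E using Finset.induction_on with
  | empty =>
    simp only [Finset.card_empty, pow_zero, one_mul, Finset.notMem_empty, or_false]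
    exact h
  | insert e E he ih =>
    have h1 := (ih (fun e' he' => hE e' (Finset.mem_insert_of_mem he'))).addArc
      (hE e (Finset.mem_insert_self e E))
    rw [Finset.card_insert_of_notMem he]
    have h2 : 4 ^ (E.card + 1) * k = 4 * (4 ^ E.card * k) := by ring
    rw [h2]
    refine h1.comap id Function.injective_id ?_
    intro i j hij
    rw [Finset.mem_insert] at hij
    rcases hij with h | h | h
    · exact Or.inl (Or.inl h)
    · exact Or.inr ⟨congrArg Prod.fst h, congrArg Prod.snd h⟩
    · exact Or.inl (Or.inr h)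

/-- adding a vertex joined in both directions to one old vertex costs one colour -/
theorem MB.addLeaf {ι : Type} {F : ι → ι → Prop} {k : ℕ} (h : MB F k) (u : ι) :
    MB (fun i j : Option ι => (∃ a b, i = some a ∧ j = some b ∧ F a b) ∨
      (i = some u ∧ j = none) ∨ (i = none ∧ j = some u)) (k + 1) := by
  intro V _ R hR W hW
  -- a maximal acyclic subset
  have hfin : ∃ A : Set V, Maximal (fun A : Set V => A ⊆ W ∧ Colable R A 1) A := by
    obtain ⟨A, -, hA⟩ := exists_maximal_ge_of_wellFoundedGT
      (fun A : Set V => A ⊆ W ∧ Colable R A 1) ∅ ⟨Set.empty_subset _, colable_empty 1⟩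
    exact ⟨A, hA⟩
  obtain ⟨A, hA⟩ := hfin
  have hAW : A ⊆ W := hA.1.1
  have hrest : ¬ Colable R (W \ A) k := by
    intro hc
    apply hW
    have := hc.union hA.1.2
    rw [Set.sdiff_union_of_subset hAW] at this
    exact this
  obtain ⟨f, l, hf, hfW, h1, h2⟩ := h V R hR _ hrest
  have hx := hfW u
  have hcyc : ¬ Colable R (insert (f u) A) 1 := by
    intro hc
    have h3 := hA.2 (y := insert (f u) A) ⟨Set.insert_subset hx.1 hAW, hc⟩ (Set.subset_insert _ _)
    exact hx.2 (h3 (Set.mem_insert _ _))
  -- the cycle through `f u`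
  have hpetal : Pth R A (f u) (f u) := by
    by_contra hno
    apply hcyc
    obtain ⟨c, hc1, hc2⟩ := hA.1.2
    have hc0 : ∀ v ∈ A, c v = 0 := fun v hv => by have := hc1 v hv; omega
    -- vertices of `A` reachable from `f u` inside `A`
    refine ⟨fun _ => 0, fun v _ => Nat.one_pos, ?_⟩
    -- `T v`: `v` is reachable from `f u` through `A`
    have hinv : ∀ a b, TransGen (fun a b => a ∈ insert (f u) A ∧ b ∈ insert (f u) A ∧ R a b ∧
        (0 : ℕ) = 0) a b → a = f u → b ∈ A ∧ Pth R A (f u) b := by
      intro a b hab hau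
      induction hab with
      | @single b h =>
        subst hau
        have hb : b ≠ f u := by
          rintro rfl
          exact hR _ h.2.2.1
        exact ⟨h.2.1.resolve_left hb, pth_single h.2.2.1⟩
      | @tail b c _ h ih =>
        have h3 := ih.2.trans ih.1 (pth_single (Z := A) h.2.2.1)
        have hb : c ≠ f u := by
          rintro rfl
          exact hno h3
        exact ⟨h.2.1.resolve_left hb, h3⟩
    intro v hv
    by_cases hvu : v = f u
    · subst hvu
      exact hx.2 (hinv _ _ hv rfl).1
    · -- the cycle avoids `f u`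
      have hvA : v ∈ A := by
        rcases TransGen.head'_iff.mp hv with ⟨_, h', _⟩
        exact h'.1.resolve_left hvu
      -- either it passes through `f u` or it lies in `A`
      by_cases hpass : TransGen (fun a b => a ∈ insert (f u) A ∧ b ∈ insert (f u) A ∧ R a b ∧
          (0 : ℕ) = 0) v (f u)
      · have h4 : TransGen (fun a b => a ∈ insert (f u) A ∧ b ∈ insert (f u) A ∧ R a b ∧
            (0 : ℕ) = 0) (f u) (f u) ∨ ¬ TransGen (fun a b => a ∈ insert (f u) A ∧
            b ∈ insert (f u) A ∧ R a b ∧ (0 : ℕ) = 0) (f u) v := by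
          by_cases h5 : TransGen (fun a b => a ∈ insert (f u) A ∧ b ∈ insert (f u) A ∧ R a b ∧
            (0 : ℕ) = 0) (f u) v
          · exact Or.inl (h5.trans hpass)
          · exact Or.inr h5
        rcases h4 with h4 | h4
        · exact hx.2 (hinv _ _ h4 rfl).1
        · -- the closed walk never meets a vertex from which `v` is unreachable
          have h6 := (transGen_restrict (P := fun x => x ∈ A ∧ ReflTransGen
            (fun a b => a ∈ insert (f u) A ∧ b ∈ insert (f u) A ∧ R a b ∧ (0 : ℕ) = 0) x v)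
            (s := fun a b => a ∈ A ∧ b ∈ A ∧ R a b ∧ c a = c b)
            (r := fun a b => (a ∈ insert (f u) A ∧ b ∈ insert (f u) A ∧ R a b ∧ (0 : ℕ) = 0) ∧
              ReflTransGen (fun a b => a ∈ insert (f u) A ∧ b ∈ insert (f u) A ∧ R a b ∧
                (0 : ℕ) = 0) b v) ?_ ⟨hvA, ReflTransGen.refl⟩ (b := v) ?_).2
          · exact hc2 v h6
          · rintro a b ⟨haA, _⟩ ⟨⟨_, hb, hRab, _⟩, hbv⟩
            have hbu : b ≠ f u := by
              rintro rfl
              rcases reflTransGen_iff_eq_or_transGen.mp hbv with h7 | h7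
              · exact hvu h7
              · exact h4 h7
            have hbA := hb.resolve_left hbu
            exact ⟨⟨hbA, hbv⟩, haA, hbA, hRab, by rw [hc0 a haA, hc0 b hbA]⟩
          · -- every step of the closed walk can still reach `v`
            have h8 : ∀ a b, TransGen (fun a b => a ∈ insert (f u) A ∧ b ∈ insert (f u) A ∧
                R a b ∧ (0 : ℕ) = 0) a b → ReflTransGen (fun a b => a ∈ insert (f u) A ∧
                b ∈ insert (f u) A ∧ R a b ∧ (0 : ℕ) = 0) b v →
                TransGen (fun a b => (a ∈ insert (f u) A ∧ b ∈ insert (f u) A ∧ R a b ∧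
                (0 : ℕ) = 0) ∧ ReflTransGen (fun a b => a ∈ insert (f u) A ∧
                b ∈ insert (f u) A ∧ R a b ∧ (0 : ℕ) = 0) b v) a b := by
              intro a b hab
              induction hab with
              | single h => intro hbv; exact TransGen.single ⟨h, hbv⟩
              | tail _ h ih => intro hcv; exact (ih (ReflTransGen.head h hcv)).tail ⟨h, hcv⟩
            exact h8 v v hv ReflTransGen.refl
      · -- never reaches `f u`
        have h6 := (transGen_restrict (P := fun x => x ∈ A ∧ ReflTransGen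
            (fun a b => a ∈ insert (f u) A ∧ b ∈ insert (f u) A ∧ R a b ∧ (0 : ℕ) = 0) v x)
            (s := fun a b => a ∈ A ∧ b ∈ A ∧ R a b ∧ c a = c b) ?_ ⟨hvA, ReflTransGen.refl⟩ hv).2
        · exact hc2 v h6
        · rintro a b ⟨haA, hva⟩ hab
          have hvb := hva.tail hab
          have hbu : b ≠ f u := by
            rintro rfl
            rcases reflTransGen_iff_eq_or_transGen.mp hvb with h7 | h7
            · exact hvu h7.symm
            · exact hpass h7
          have hbA := hab.2.1.resolve_left hbu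
          exact ⟨⟨hbA, hvb⟩, haA, hbA, hab.2.2.1, by rw [hc0 a haA, hc0 b hbA]⟩
  obtain ⟨p, hp1, hp2, hp3⟩ := hpetal.nodup
  cases p with
  | nil =>
    simp only [List.nil_append, List.isChain_cons_cons, List.isChain_singleton, and_true] at hp1
    exact absurd hp1 (hR _)
  | cons z p =>
    have hzA : z ∈ A := hp3 z (by simp)
    rw [List.nodup_cons] at hp2
    have hpA : ∀ w ∈ p, w ∈ A := fun w hw => hp3 w (List.mem_cons_of_mem _ hw)
    rw [List.cons_append, List.isChain_cons_cons] at hp1
    refine ⟨fun i => i.elim z f, fun i j => match i, j with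
      | some a, some b => l a b
      | none, some _ => p
      | _, none => [], ?_, ?_, ?_, ?_⟩
    · intro i j hij
      cases i with
      | none =>
        cases j with
        | none => rfl
        | some j =>
          simp only [Option.elim] at hij
          exact absurd hzA (hij ▸ (hfW j).2)
      | some i =>
        cases j with
        | none =>
          simp only [Option.elim] at hij
          exact absurd hzA (hij ▸ (hfW i).2)
        | some j =>
          simp only [Option.elim] at hij
          rw [hf hij]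
    · intro i
      cases i with
      | none => exact hAW hzA
      | some i => exact (hfW i).1
    · rintro i j (⟨a, b, rfl, rfl, hab⟩ | ⟨rfl, rfl⟩ | ⟨rfl, rfl⟩)
      · obtain ⟨g1, g2, g3⟩ := h1 a b hab
        refine ⟨g1, g2, fun w hw => ⟨(g3 w hw).1.1, ?_⟩⟩
        intro k
        cases k with
        | none =>
          simp only [Option.elim]
          rintro rfl
          exact (g3 w hw).1.2 hzA
        | some k => exact (g3 w hw).2 k
      · refine ⟨?_, List.nodup_nil, by simp⟩
        simpa using hp1.1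
      · refine ⟨hp1.2, hp2.2, fun w hw => ⟨hAW (hpA w hw), ?_⟩⟩
        intro k
        cases k with
        | none =>
          simp only [Option.elim]
          rintro rfl
          exact hp2.1 hw
        | some k =>
          simp only [Option.elim]
          rintro rfl
          exact (hfW k).2 (hpA _ hw)
    · rintro i j k m (⟨a, b, rfl, rfl, hab⟩ | ⟨rfl, rfl⟩ | ⟨rfl, rfl⟩)
        (⟨a', b', rfl, rfl, hab'⟩ | ⟨rfl, rfl⟩ | ⟨rfl, rfl⟩) hne w hw
      · refine h2 a b a' b' hab hab' ?_ w hw
        intro he
        rw [Prod.mk.injEq] at he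
        exact hne (by rw [he.1, he.2])
      · simp
      · intro hw'
        exact ((h1 a b hab).2.2 w hw).1.2 (hpA w hw')
      · simp at hw
      · simp at hw
      · simp at hw
      · intro hw'
        exact ((h1 a' b' hab').2.2 w hw').1.2 (hpA w hw)
      · simp
      · exact absurd rfl hne

/-- disjoint unions: the costs add up -/
theorem MB.sum {ι κ : Type} {F : ι → ι → Prop} {G : κ → κ → Prop} {k m : ℕ} (hF : MB F k)
    (hG : MB G m) :
    MB (fun i j : ι ⊕ κ => (∃ a b, i = Sum.inl a ∧ j = Sum.inl b ∧ F a b) ∨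
      (∃ a b, i = Sum.inr a ∧ j = Sum.inr b ∧ G a b)) (k + m + 1) := by
  intro V _ R hR W hW
  have hWk : ¬ Colable R W k := fun hc => hW (hc.mono subset_rfl (by omega))
  obtain ⟨A, hAW, hA, hA1, -⟩ := exists_strong hWk
  have hrest : ¬ Colable R (W \ A) m := by
    intro hc
    apply hW
    obtain ⟨x, hx⟩ := nonempty_of_not_colable hA
    have h1 : Colable R {x} 1 := by
      refine ⟨fun _ => 0, fun _ _ => Nat.one_pos, fun v hv => ?_⟩
      have h2 := (transGen_restrict (P := fun _ => True)
        (s := fun a b => a = x ∧ b = x ∧ R a b) (fun a b _ hab => ⟨trivial, hab.1, hab.2.1,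
          hab.2.2.1⟩) trivial hv).2
      rcases TransGen.head'_iff.mp h2 with ⟨_, ⟨h3, h4, h5⟩, _⟩
      rw [h3, h4] at h5
      exact hR x h5
    have h3 := ((hA1 x hx).union h1).union hc
    refine h3.mono ?_ (by omega)
    intro y hy
    by_cases hyA : y ∈ A
    · by_cases hyx : y = x
      · exact Or.inl (Or.inr hyx)
      · exact Or.inl (Or.inl ⟨hyA, hyx⟩)
    · exact Or.inr ⟨hy, hyA⟩
  obtain ⟨f, l, hf, hfW, h1, h2⟩ := hF V R hR _ hA
  obtain ⟨g, l', hg, hgW, g1, g2⟩ := hG V R hR _ hrest
  refine ⟨Sum.elim f g, fun i j => match i, j with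
    | Sum.inl a, Sum.inl b => l a b
    | Sum.inr a, Sum.inr b => l' a b
    | _, _ => [], ?_, ?_, ?_, ?_⟩
  · intro i j hij
    rcases i with i | i <;> rcases j with j | j <;> simp only [Sum.elim_inl, Sum.elim_inr] at hij
    · rw [hf hij]
    · exact absurd (hfW i) (hij ▸ (hgW j).2)
    · exact absurd (hfW j) (hij ▸ (hgW i).2)
    · rw [hg hij]
  · rintro (i | i)
    · exact hAW (hfW i)
    · exact (hgW i).1
  · rintro i j (⟨a, b, rfl, rfl, hab⟩ | ⟨a, b, rfl, rfl, hab⟩)
    · obtain ⟨e1, e2, e3⟩ := h1 a b hab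
      refine ⟨e1, e2, fun z hz => ⟨hAW (e3 z hz).1, ?_⟩⟩
      rintro (k | k)
      · exact (e3 z hz).2 k
      · simp only [Sum.elim_inr]
        rintro rfl
        exact (hgW k).2 (e3 _ hz).1
    · obtain ⟨e1, e2, e3⟩ := g1 a b hab
      refine ⟨e1, e2, fun z hz => ⟨(e3 z hz).1.1, ?_⟩⟩
      rintro (k | k)
      · simp only [Sum.elim_inl]
        rintro rfl
        exact (e3 _ hz).1.2 (hfW k)
      · exact (e3 z hz).2 k
  · rintro i j k m (⟨a, b, rfl, rfl, hab⟩ | ⟨a, b, rfl, rfl, hab⟩)
      (⟨a', b', rfl, rfl, hab'⟩ | ⟨a', b', rfl, rfl, hab'⟩) hne z hz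
    · refine h2 a b a' b' hab hab' ?_ z hz
      intro he
      rw [Prod.mk.injEq] at he
      exact hne (by rw [he.1, he.2])
    · intro hz'
      exact ((g1 a' b' hab').2.2 z hz').1.2 ((h1 a b hab).2.2 z hz).1
    · intro hz'
      exact ((g1 a b hab).2.2 z hz).1.2 ((h1 a' b' hab').2.2 z hz').1
    · refine g2 a b a' b' hab hab' ?_ z hz
      intro he
      rw [Prod.mk.injEq] at he
      exact hne (by rw [he.1, he.2])

end Pool.Agent.ParBFS
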