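import Pool.Agent.ParBFS.Basic

/-! Paths, breadth first search, and nested breadth first search. -/

open Classical

namespace Pool.Agent.ParBFS

open Relation

variable {V : Type} {R : V → V → Prop}

theorem Pth.mono {Z Z' : Set V} {x y : V} (h : Pth R Z x y) (hZ : Z ⊆ Z') : Pth R Z' x y := by
  obtain ⟨l, h1, h2⟩ := h
  exact ⟨l, h1, fun z hz => hZ (h2 z hz)⟩

theorem pth_single {Z : Set V} {x y : V} (h : R x y) : Pth R Z x y :=
  ⟨[], by simpa using h, by simp⟩

theorem Pth.trans {Z : Set V} {x r y : V} (h1 : Pth R Z x r) (hr : r ∈ Z) (h2 : Pth R Z r y) :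
    Pth R Z x y := by
  obtain ⟨l, hl1, hl2⟩ := h1
  obtain ⟨m, hm1, hm2⟩ := h2
  refine ⟨l ++ r :: m, ?_, ?_⟩
  · have h3 : x :: (l ++ r :: m ++ [y]) = (x :: l) ++ r :: (m ++ [y]) := by simp
    rw [h3, List.isChain_split]
    exact ⟨by simpa using hl1, hm1⟩
  · intro z hz
    rw [List.mem_append, List.mem_cons] at hz
    rcases hz with h | h | h
    · exact hl2 z h
    · exact h ▸ hr
    · exact hm2 z h

theorem isChain_reverse_swap {l : List V} (h : l.IsChain R) :
    l.reverse.IsChain (Function.swap R) := by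
  rw [List.isChain_reverse]
  exact h

theorem Pth.swap {Z : Set V} {x y : V} (h : Pth (Function.swap R) Z x y) : Pth R Z y x := by
  obtain ⟨l, h1, h2⟩ := h
  refine ⟨l.reverse, ?_, fun z hz => h2 z (List.mem_reverse.mp hz)⟩
  have h3 := isChain_reverse_swap h1
  have h4 : (x :: (l ++ [y])).reverse = y :: (l.reverse ++ [x]) := by simp
  rw [h4] at h3
  exact h3

theorem exists_dup {l : List V} (h : ¬ l.Nodup) : ∃ z a b c, l = a ++ z :: (b ++ z :: c) := by
  induction l with
  | nil => exact absurd List.nodup_nil h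
  | cons x t ih =>
    by_cases hx : x ∈ t
    · obtain ⟨s, t', rfl⟩ := List.append_of_mem hx
      exact ⟨x, [], s, t', rfl⟩
    · have ht : ¬ t.Nodup := fun ht => h (List.nodup_cons.mpr ⟨hx, ht⟩)
      obtain ⟨z, a, b, c, rfl⟩ := ih ht
      exact ⟨z, x :: a, b, c, rfl⟩

theorem nodup_of_chain {Z : Set V} {x y : V} (n : ℕ) : ∀ l : List V, l.length ≤ n →
    (x :: (l ++ [y])).IsChain R → (∀ z ∈ l, z ∈ Z) →
    ∃ l' : List V, (x :: (l' ++ [y])).IsChain R ∧ (∀ z ∈ l', z ∈ Z ∧ z ∈ l) ∧ l'.Nodup := by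
  induction n with
  | zero =>
    intro l hl h1 h2
    have : l = [] := List.length_eq_zero_iff.mp (by omega)
    subst this
    exact ⟨[], h1, by simp, List.nodup_nil⟩
  | succ n ih =>
    intro l hl h1 h2
    by_cases hnd : l.Nodup
    · exact ⟨l, h1, fun z hz => ⟨h2 z hz, hz⟩, hnd⟩
    · obtain ⟨z, a, b, c, rfl⟩ := exists_dup hnd
      have h3 : (x :: (a ++ z :: c ++ [y])).IsChain R := by
        have e1 : x :: (a ++ z :: (b ++ z :: c) ++ [y]) = (x :: a) ++ z :: (b ++ z :: (c ++ [y])) := by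
          simp
        have e2 : x :: (a ++ z :: c ++ [y]) = (x :: a) ++ z :: (c ++ [y]) := by simp
        rw [e1, List.isChain_split] at h1
        rw [e2, List.isChain_split]
        refine ⟨h1.1, ?_⟩
        have h4 := h1.2
        rw [← List.cons_append, List.isChain_split] at h4
        exact h4.2
      obtain ⟨l', g1, g2, g3⟩ := ih (a ++ z :: c) (by
        simp only [List.length_append, List.length_cons] at hl ⊢
        omega) h3 (fun w hw => h2 w (by
          simp only [List.mem_append, List.mem_cons] at hw ⊢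
          tauto))
      refine ⟨l', g1, fun w hw => ⟨(g2 w hw).1, ?_⟩, g3⟩
      have := (g2 w hw).2
      simp only [List.mem_append, List.mem_cons] at this ⊢
      tauto

theorem Pth.nodup {Z : Set V} {x y : V} (h : Pth R Z x y) :
    ∃ l : List V, (x :: (l ++ [y])).IsChain R ∧ l.Nodup ∧ ∀ z ∈ l, z ∈ Z := by
  obtain ⟨l, h1, h2⟩ := h
  obtain ⟨l', g1, g2, g3⟩ := nodup_of_chain l.length l le_rfl h1 h2
  exact ⟨l', g1, g3, fun z hz => (g2 z hz).1⟩

/-- distances from `r` -/
theorem exists_dist {W : Set V} {r : V} (hr : r ∈ W)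
    (hs : ∀ v ∈ W, ReflTransGen (fun a b => a ∈ W ∧ b ∈ W ∧ R a b) r v) :
    ∃ d : V → ℕ, (∀ a ∈ W, ∀ b ∈ W, R a b → d b ≤ d a + 1) ∧
      (∀ v ∈ W, v ≠ r → Pth R {z | z ∈ W ∧ d z < d v} r v) ∧
      (∀ v ∈ W, v ≠ r → d r < d v) := by
  let B : ℕ → Set V := fun n => Nat.rec {r} (fun _ S => S ∪ {v | v ∈ W ∧ ∃ u ∈ S, R u v}) n
  have hB0 : B 0 = {r} := rfl
  have hBs : ∀ n, B (n + 1) = B n ∪ {v | v ∈ W ∧ ∃ u ∈ B n, R u v} := fun n => rfl
  have hBW : ∀ n, B n ⊆ W := by
    intro n
    induction n with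
    | zero => rw [hB0]; intro v hv; rw [Set.mem_singleton_iff] at hv; exact hv ▸ hr
    | succ n ih =>
      rw [hBs]
      intro v hv
      rcases hv with hv | hv
      · exact ih hv
      · exact hv.1
  have hex : ∀ v ∈ W, ∃ n, v ∈ B n := by
    intro v hv
    have h := hs v hv
    induction h with
    | refl => exact ⟨0, by rw [hB0]; rfl⟩
    | tail _ h ih =>
      obtain ⟨n, hn⟩ := ih h.1
      exact ⟨n + 1, by rw [hBs]; exact Or.inr ⟨h.2.1, _, hn, h.2.2⟩⟩
  have hmin : ∀ v n, v ∈ B n → sInf {n | v ∈ B n} ≤ n := fun v n h => Nat.sInf_le h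
  have hmem : ∀ v ∈ W, v ∈ B (sInf {n | v ∈ B n}) := fun v hv => Nat.sInf_mem (hex v hv)
  refine ⟨fun v => sInf {n | v ∈ B n}, ?_, ?_, ?_⟩
  · intro a ha b hb hab
    refine hmin b _ ?_
    rw [hBs]
    exact Or.inr ⟨hb, a, hmem a ha, hab⟩
  · have key : ∀ n, ∀ v ∈ W, v ≠ r → sInf {n | v ∈ B n} = n →
        Pth R {z | z ∈ W ∧ sInf {n | z ∈ B n} < n} r v := by
      intro n
      induction n using Nat.strong_induction_on with
      | _ n ih =>
        intro v hv hvr hn
        have h1 := hmem v hv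
        rw [hn] at h1
        cases n with
        | zero => rw [hB0] at h1; exact absurd h1 hvr
        | succ m =>
          rw [hBs] at h1
          rcases h1 with h1 | ⟨_, u, hu, huv⟩
          · have := hmin v m h1
            omega
          · have hum := hmin u m hu
            by_cases hur : u = r
            · subst hur
              exact pth_single huv
            · have h2 := ih _ (by omega : sInf {n | u ∈ B n} < m + 1) u (hBW m hu) hur rfl
              refine Pth.trans (r := u) (h2.mono ?_) ?_ (pth_single huv)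
              · intro z hz
                exact ⟨hz.1, by have := hz.2; omega⟩
              · exact ⟨hBW m hu, by omega⟩
    intro v hv hvr
    exact key _ v hv hvr rfl
  · intro v hv hvr
    have h1 : sInf {n | r ∈ B n} ≤ 0 := hmin r 0 (by rw [hB0]; rfl)
    have h2 := hmem v hv
    have h3 : sInf {n | v ∈ B n} ≠ 0 := by
      intro h0
      rw [h0, hB0] at h2
      exact hvr h2
    show sInf {n | r ∈ B n} < sInf {n | v ∈ B n}
    omega

/-- NESTED BREADTH FIRST SEARCH: a set which is not `4k`-colourable contains a set `W'`, not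
`k`-colourable, such that any two vertices of `W'` are joined by a path outside `W'`. -/
theorem bfs2 [Finite V] {W : Set V} {k : ℕ} (h : ¬ Colable R W (4 * k)) :
    ∃ W' ⊆ W, ¬ Colable R W' k ∧ ∀ x ∈ W', ∀ y ∈ W', x ≠ y → Pth R (W \ W') x y := by
  obtain ⟨S, hSW, hS, -, hstr⟩ := exists_strong h
  obtain ⟨r, hr⟩ := nonempty_of_not_colable hS
  obtain ⟨d, hd1, hd2, hd3⟩ := exists_dist hr (fun v hv => hstr r hr v hv)
  -- the reversed digraph
  have hstr' : ∀ v ∈ S, ReflTransGen (fun a b => a ∈ S ∧ b ∈ S ∧ (Function.swap R) a b) r v := by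
    intro v hv
    have h1 := hstr v hv r hr
    have h2 : ReflTransGen (Function.swap (fun a b => a ∈ S ∧ b ∈ S ∧ R a b)) r v :=
      reflTransGen_swap.mpr h1
    have h3 : Function.swap (fun a b => a ∈ S ∧ b ∈ S ∧ R a b) =
        (fun a b => a ∈ S ∧ b ∈ S ∧ (Function.swap R) a b) := by
      funext a b
      simp only [Function.swap, eq_iff_iff]
      tauto
    rw [h3] at h2
    exact h2
  obtain ⟨e, he1, he2, he3⟩ := exists_dist (R := Function.swap R) hr hstr'
  -- a level of the out-search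
  obtain ⟨i, hi⟩ : ∃ i, ¬ Colable R {v | v ∈ S ∧ d v = i} (2 * k) := by
    by_contra hcon
    push Not at hcon
    apply hS
    have := Colable.levels hd1 hcon
    exact this.mono subset_rfl (by omega)
  obtain ⟨j, hj⟩ : ∃ j, ¬ Colable R {v | (v ∈ S ∧ d v = i) ∧ e v = j} k := by
    by_contra hcon
    push Not at hcon
    apply hi
    have h1 : Colable (Function.swap R) {v | v ∈ S ∧ d v = i} (2 * k) := by
      refine Colable.levels (d := e) ?_ ?_
      · intro a ha b hb hab
        exact he1 a ha.1 b hb.1 hab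
      · intro n
        exact (hcon n).swap
    exact h1.swap
  refine ⟨{v | (v ∈ S ∧ d v = i) ∧ e v = j}, fun v hv => hSW hv.1.1, hj, ?_⟩
  rintro x ⟨⟨hxS, hxi⟩, hxj⟩ y ⟨⟨hyS, hyi⟩, hyj⟩ hxy
  have hxr : x ≠ r := by
    rintro rfl
    have := hd3 y hyS (fun h => hxy h.symm)
    omega
  have hyr : y ≠ r := by
    rintro rfl
    have := hd3 x hxS hxy
    omega
  have h1 : Pth R (W \ {v | (v ∈ S ∧ d v = i) ∧ e v = j}) r y := by
    refine (hd2 y hyS hyr).mono ?_
    rintro z ⟨hz, hzd⟩
    refine ⟨hSW hz, fun h => ?_⟩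
    have := h.1.2
    omega
  have h2 : Pth R (W \ {v | (v ∈ S ∧ d v = i) ∧ e v = j}) x r := by
    refine (he2 x hxS hxr).swap.mono ?_
    rintro z ⟨hz, hze⟩
    refine ⟨hSW hz, fun h => ?_⟩
    have := h.2
    omega
  refine h2.trans ⟨hSW hr, fun h => ?_⟩ h1
  have := hd3 x hxS hxr
  have := h.1.2
  omega

end Pool.Agent.ParBFS
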